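import Pool.Agent.H83.VU.Targets

/-!
# Row BIL: the bilinear bound
-/

set_option autoImplicit false

open Finset Pool.Agent.H83.VU

namespace Pool.Agent.H1.VU

theorem pf_BIL (hBI1 : T_BI1) (hBI2 : T_BI2) (hBI3 : T_BI3) : T_BIL := by
  intro k s Z a hs hZ
  have h1 := hBI1 k s Z a hs
  have h2 := hBI2 k s Z a hs
  have h3 := hBI3 k s Z a hs
  set A : ℝ := ∑ q ∈ box s Z ×ˢ box s Z, ‖VV a Z (ps k q.1 - ps k q.2)‖ with hA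
  set B : ℝ := ∑ h ∈ HH k s Z, ‖VV a Z h‖ ^ (2 * s) with hB
  set P : ℝ := ∏ j : Fin k, MM (a j) (s * Z ^ ((j : ℕ) + 1)) with hP
  have hA0 : 0 ≤ A := Finset.sum_nonneg fun _ _ => norm_nonneg _
  have hJ0 : (0 : ℝ) ≤ (J s k Z : ℝ) := Nat.cast_nonneg _
  have hZ0 : (0 : ℝ) ≤ (Z : ℝ) := Nat.cast_nonneg _
  obtain ⟨t, rfl⟩ : ∃ t, s = t + 1 := ⟨s - 1, by omega⟩
  have e1 : 4 * (t + 1) ^ 2 = 2 * (t + 1) * (2 * (t + 1)) := by ring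
  have e2 : 8 * (t + 1) ^ 2 - 4 * (t + 1) =
      (2 * (t + 1) - 1) * (2 * (t + 1)) + 2 * (t + 1) * (2 * (t + 1) - 2) + 2 * (t + 1) := by
    have i1 : 2 * (t + 1) - 1 = 2 * t + 1 := by omega
    have i2 : 2 * (t + 1) - 2 = 2 * t := by omega
    rw [i1, i2]
    have i3 : 8 * (t + 1) ^ 2 =
        (2 * t + 1) * (2 * (t + 1)) + 2 * (t + 1) * (2 * t) + 2 * (t + 1) + 4 * (t + 1) := by ring
    omega
  calc ‖BB a Z‖ ^ (4 * (t + 1) ^ 2) = (‖BB a Z‖ ^ (2 * (t + 1))) ^ (2 * (t + 1)) := by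
        rw [e1, pow_mul]
    _ ≤ ((Z : ℝ) ^ (2 * (t + 1) - 1) * A) ^ (2 * (t + 1)) :=
        pow_le_pow_left₀ (by positivity) h1 _
    _ = (Z : ℝ) ^ ((2 * (t + 1) - 1) * (2 * (t + 1))) * A ^ (2 * (t + 1)) := by
        rw [mul_pow, ← pow_mul]
    _ ≤ (Z : ℝ) ^ ((2 * (t + 1) - 1) * (2 * (t + 1))) *
          (((Z : ℝ) ^ (2 * (t + 1))) ^ (2 * (t + 1) - 2) *
            ((J (t + 1) k Z : ℝ) * (Z : ℝ) ^ (2 * (t + 1))) * B) :=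
        mul_le_mul_of_nonneg_left h2 (by positivity)
    _ ≤ (Z : ℝ) ^ ((2 * (t + 1) - 1) * (2 * (t + 1))) *
          (((Z : ℝ) ^ (2 * (t + 1))) ^ (2 * (t + 1) - 2) *
            ((J (t + 1) k Z : ℝ) * (Z : ℝ) ^ (2 * (t + 1))) * ((J (t + 1) k Z : ℝ) * P)) :=
        mul_le_mul_of_nonneg_left (mul_le_mul_of_nonneg_left h3 (by positivity)) (by positivity)
    _ = (Z : ℝ) ^ (8 * (t + 1) ^ 2 - 4 * (t + 1)) * (J (t + 1) k Z : ℝ) ^ 2 * P := by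
        rw [e2, pow_add, pow_add, ← pow_mul]
        ring

end Pool.Agent.H1.VU
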