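import Pool.Agent.H83.VU.Targets

/-!
# Row CLS: solutions with two vectors in one residue class
-/

set_option autoImplicit false

open Finset Polynomial Pool.Agent.H83.VU

namespace Pool.Agent.H1.VU

theorem pf_CLS (hCS : T_CS) (hPOL : T_POL) (hRES : T_RES) : T_CLS := by
  intro k s N p a X hp
  set A : Finset ℤ := (Icc 1 (N : ℤ)).filter fun n => (p : ℤ) ∣ n - a with hA
  set S := ((X ×ˢ X) ×ˢ (vec s A ×ˢ vec s A)).filter fun q =>
    ps k q.1.1 + ps k q.2.1 = ps k q.1.2 + ps k q.2.2 with hS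
  set F := (X ×ˢ X).filter fun q => ∀ j ∈ Icc 1 k,
      (p : ℤ) ^ j ∣ ∑ i, (q.1 i - (a : ℤ)) ^ j - ∑ i, (q.2 i - (a : ℤ)) ^ j with hF
  have himg : S.image Prod.fst ⊆ F := by
    intro q hq
    obtain ⟨⟨⟨x, y⟩, ⟨u, v⟩⟩, h, rfl⟩ := mem_image.1 hq
    rw [hS, mem_filter, mem_product, mem_product, mem_product, mem_vec, mem_vec] at h
    obtain ⟨⟨⟨hx, hy⟩, ⟨hu, hv⟩⟩, heq⟩ := h
    rw [hF, mem_filter, mem_product]
    refine ⟨⟨hx, hy⟩, fun j hj => ?_⟩
    rw [mem_Icc] at hj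
    have hdeg : ((Polynomial.X - C (a : ℤ)) ^ j : Polynomial ℤ).natDegree ≤ k := by
      refine natDegree_pow_le.trans ?_
      rw [natDegree_X_sub_C, mul_one]
      exact hj.2
    have h1 := hPOL k k s x y u v heq ((Polynomial.X - C (a : ℤ)) ^ j) hdeg
    simp only [eval_pow, eval_sub, eval_X, eval_C] at h1
    have h2 : ∑ i, (x i - (a : ℤ)) ^ j - ∑ i, (y i - (a : ℤ)) ^ j =
        ∑ i, (v i - (a : ℤ)) ^ j - ∑ i, (u i - (a : ℤ)) ^ j := by linarith
    change (p : ℤ) ^ j ∣ ∑ i, (x i - (a : ℤ)) ^ j - ∑ i, (y i - (a : ℤ)) ^ j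
    rw [h2]
    refine dvd_sub (Finset.dvd_sum fun i _ => ?_) (Finset.dvd_sum fun i _ => ?_)
    · exact pow_dvd_pow_of_dvd (mem_filter.1 (hv i)).2 j
    · exact pow_dvd_pow_of_dvd (mem_filter.1 (hu i)).2 j
  have hfib : ∀ b ∈ S.image Prod.fst, (S.filter fun q => q.1 = b).card ≤ J s k (N / p + 1) := by
    rintro ⟨x, y⟩ -
    have h1 : (S.filter fun q => q.1 = (x, y)).card ≤ rr k s A (ps k y - ps k x) := by
      unfold rr
      refine card_le_card_of_injOn Prod.snd ?_ ?_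
      · rintro ⟨⟨x', y'⟩, ⟨u, v⟩⟩ hq
        rw [mem_coe, mem_filter, hS, mem_filter, mem_product] at hq
        obtain ⟨⟨⟨-, huv⟩, heq⟩, hxy⟩ := hq
        simp only [Prod.mk.injEq] at hxy
        obtain ⟨rfl, rfl⟩ := hxy
        rw [mem_coe, mem_filter]
        refine ⟨huv, ?_⟩
        simp only at heq ⊢
        rw [sub_eq_sub_iff_add_eq_add, add_comm (ps k u), add_comm (ps k y')]
        rw [heq, add_comm]
      · rintro ⟨b, q⟩ hq ⟨b', q'⟩ hq' heq
        rw [mem_coe, mem_filter] at hq hq'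
        have h2 : b = (x, y) := hq.2
        have h3 : b' = (x, y) := hq'.2
        have h4 : q = q' := heq
        rw [h2, h3, h4]
    exact h1.trans ((hCS k s A _).trans (hRES k s N p a hp))
  have h := Finset.card_le_mul_card_image (f := Prod.fst) S (J s k (N / p + 1)) hfib
  have h2 := card_le_card himg
  calc cA k s X A = S.card := rfl
    _ ≤ J s k (N / p + 1) * (S.image Prod.fst).card := h
    _ ≤ J s k (N / p + 1) * F.card := Nat.mul_le_mul_left _ h2
    _ = F.card * J s k (N / p + 1) := Nat.mul_comm _ _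

end Pool.Agent.H1.VU
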