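import Pool.Agent.H83.VU.Targets

/-!
# Row VIN: large frequencies
-/

set_option autoImplicit false

open Finset Pool.Agent.H83.VU

namespace Pool.Agent.H1.VU

theorem pf_VIN (hSHF : T_SHF) (hTAY : T_TAY) (hBND : T_BND) : T_VIN := by
  obtain ⟨N₁, hB⟩ := hBND
  refine ⟨max N₁ ⌈Real.exp 4096⌉₊, fun N N' hN hNN' hN3 u hu1 hu2 => ?_⟩
  have hNN₁ : N₁ ≤ N := le_trans (le_max_left _ _) hN
  have hNe : Real.exp 4096 ≤ N := (Nat.le_ceil _).trans (by exact_mod_cast le_trans (le_max_right _ _) hN)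
  have hN0 : (0 : ℝ) < N := (Real.exp_pos _).trans_le hNe
  have hN1 : (1 : ℝ) ≤ N := (Real.one_le_exp (by norm_num)).trans hNe
  set L := Real.log N with hL
  have hexpL : Real.exp L = N := Real.exp_log hN0
  have hL4096 : (4096 : ℝ) ≤ L := by
    rw [hL, Real.le_log_iff_exp_le hN0]
    exact hNe
  have hL0 : 0 < L := by linarith
  -- the twelfth root of `L`
  set t := L ^ (1 / 12 : ℝ) with ht
  have ht12 : t ^ 12 = L := by
    rw [ht, ← Real.rpow_natCast, ← Real.rpow_mul hL0.le]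
    norm_num
  have ht4 : L ^ (1 / 3 : ℝ) = t ^ 4 := by
    rw [ht, ← Real.rpow_natCast, ← Real.rpow_mul hL0.le]
    norm_num
  have ht3 : L ^ (1 / 4 : ℝ) = t ^ 3 := by
    rw [ht, ← Real.rpow_natCast, ← Real.rpow_mul hL0.le]
    norm_num
  have ht0 : 0 ≤ t := Real.rpow_nonneg hL0.le _
  have ht2 : 2 ≤ t := by
    by_contra hlt
    push Not at hlt
    have h1 : t ^ 12 < 2 ^ 12 := pow_lt_pow_left₀ hlt ht0 (by norm_num)
    rw [ht12] at h1
    norm_num at h1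
    linarith
  -- the length of the shifts
  set Z := ⌊(N : ℝ) ^ (2 / 5 : ℝ)⌋₊ with hZ
  have hZ1 : 1 ≤ Z := by
    rw [hZ, Nat.one_le_floor_iff]
    exact Real.one_le_rpow hN1 (by norm_num)
  have hZr : (Z : ℝ) ≤ Real.exp (2 / 5 * L) := by
    have h1 := Nat.floor_le (Real.rpow_nonneg hN0.le (2 / 5 : ℝ))
    rw [← hZ] at h1
    refine h1.trans (le_of_eq ?_)
    rw [Real.rpow_def_of_pos hN0, mul_comm]
  have hZpos : (0 : ℝ) < Z := by exact_mod_cast hZ1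
  have hZ2 : (Z : ℝ) ^ 2 ≤ N * Real.exp (-(L / 5)) := by
    have h1 : (Z : ℝ) ^ 2 ≤ Real.exp (2 / 5 * L) ^ 2 := pow_le_pow_left₀ hZpos.le hZr 2
    refine h1.trans (le_of_eq ?_)
    rw [← Real.exp_nat_mul, ← hexpL, ← Real.exp_add]
    congr 1
    push_cast
    ring
  have hsmall : Real.exp (-(L / 5)) ≤ 1 / 2 := by
    have h1 : Real.exp (-(L / 5)) ≤ Real.exp (-1) := Real.exp_le_exp.2 (by linarith)
    have h2 : Real.exp (-1) ≤ 1 / 2 := by
      rw [Real.exp_neg, one_div]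
      exact inv_anti₀ (by norm_num) (by linarith [Real.add_one_le_exp (1 : ℝ)])
    exact h1.trans h2
  have hu0 : 0 < |u| := lt_of_lt_of_le (Real.rpow_pos_of_pos hN0 _) hu1
  set k := ⌊5 * Real.log |u| / L⌋₊ + 2 with hk
  have hk1 : 5 * Real.log |u| + 2 * L ≤ ((k : ℝ) + 1) * L := by
    have h1 : 5 * Real.log |u| / L < (⌊5 * Real.log |u| / L⌋₊ : ℝ) + 1 := Nat.lt_floor_add_one _
    have h2 : 5 * Real.log |u| < ((⌊5 * Real.log |u| / L⌋₊ : ℝ) + 1) * L := (div_lt_iff₀ hL0).1 h1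
    rw [hk]
    push_cast
    nlinarith
  -- one block
  have hn : ∀ n ∈ Ioc N N', ‖∑ x ∈ Icc 1 Z, ∑ y ∈ Icc 1 Z, ni u (n + x * y)‖ ≤
      (Z : ℝ) ^ 2 * (Real.exp (-(t ^ 4)) + 2 * Real.exp (-(2 / 5 * L))) := by
    intro n hn
    rw [mem_Ioc] at hn
    have hNn : (N : ℝ) ≤ n := by exact_mod_cast hn.1.le
    have hn0 : (0 : ℝ) < n := hN0.trans_le hNn
    have h1 : 2 * Z ^ 2 ≤ n := by
      have h2 : (2 : ℝ) * (Z : ℝ) ^ 2 ≤ n := by nlinarith
      exact_mod_cast h2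
    have h2 := hTAY k n Z u (by omega) h1
    have h3 := hB N n hNN₁ hn.1.le (by omega) u hu1 hu2
    rw [ht4] at h3
    have h4 : (Z : ℝ) ^ 2 / n ≤ Real.exp (-(L / 5)) := by
      rw [div_le_iff₀ hn0]
      refine hZ2.trans ?_
      rw [mul_comm]
      exact mul_le_mul_of_nonneg_left hNn (Real.exp_pos _).le
    have h5 : |u| * ((Z : ℝ) ^ 2 / n) ^ (k + 1) ≤ Real.exp (-(2 / 5 * L)) := by
      have h6 : ((Z : ℝ) ^ 2 / n) ^ (k + 1) ≤ Real.exp (-(L / 5)) ^ (k + 1) :=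
        pow_le_pow_left₀ (by positivity) h4 _
      calc |u| * ((Z : ℝ) ^ 2 / n) ^ (k + 1) ≤ |u| * Real.exp (-(L / 5)) ^ (k + 1) :=
            mul_le_mul_of_nonneg_left h6 hu0.le
        _ = Real.exp (Real.log |u| + ((k : ℝ) + 1) * (-(L / 5))) := by
            rw [Real.exp_add, Real.exp_log hu0, ← Real.exp_nat_mul]
            push_cast
            rfl
        _ ≤ _ := Real.exp_le_exp.2 (by linarith)
    refine h2.trans ?_
    have h7 : (Z : ℝ) ^ 2 * (2 * |u| * ((Z : ℝ) ^ 2 / n) ^ (k + 1)) ≤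
        (Z : ℝ) ^ 2 * (2 * Real.exp (-(2 / 5 * L))) := by
      refine mul_le_mul_of_nonneg_left ?_ (by positivity)
      rw [mul_assoc]
      exact mul_le_mul_of_nonneg_left h5 (by norm_num)
    rw [mul_add]
    exact add_le_add h3 h7
  -- the sum
  have hS := hSHF (ni u) N N' Z (fun n => (norm_ni u n).le) hNN'
  set S := ‖∑ n ∈ Ioc N N', ni u n‖ with hSdef
  have hcard : ((Ioc N N').card : ℝ) ≤ 2 * N := by
    rw [Nat.card_Ioc]
    have : N' - N ≤ 2 * N := by omega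
    exact_mod_cast this
  have hsum : ∑ n ∈ Ioc N N', ‖∑ x ∈ Icc 1 Z, ∑ y ∈ Icc 1 Z, ni u (n + x * y)‖ ≤
      2 * N * ((Z : ℝ) ^ 2 * (Real.exp (-(t ^ 4)) + 2 * Real.exp (-(2 / 5 * L)))) := by
    refine (Finset.sum_le_sum hn).trans ?_
    rw [Finset.sum_const, nsmul_eq_mul]
    exact mul_le_mul_of_nonneg_right hcard (by positivity)
  have hmain : S ≤ 2 * N * (Real.exp (-(t ^ 4)) + 2 * Real.exp (-(2 / 5 * L))) +
      2 * (Z : ℝ) ^ 2 := by
    have h1 : S * (Z : ℝ) ^ 2 ≤ (2 * N * (Real.exp (-(t ^ 4)) + 2 * Real.exp (-(2 / 5 * L))) +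
        2 * (Z : ℝ) ^ 2) * (Z : ℝ) ^ 2 := by
      calc S * (Z : ℝ) ^ 2 ≤ 2 * N * ((Z : ℝ) ^ 2 *
            (Real.exp (-(t ^ 4)) + 2 * Real.exp (-(2 / 5 * L)))) + 2 * (Z : ℝ) ^ 4 :=
            hS.trans (add_le_add hsum le_rfl)
        _ = _ := by ring
    exact le_of_mul_le_mul_right h1 (by positivity)
  -- the numbers
  have ht8 : (5 : ℝ) ≤ t ^ 8 := by
    have h1 : (2 : ℝ) ^ 8 ≤ t ^ 8 := pow_le_pow_left₀ (by norm_num) ht2 8
    norm_num at h1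
    linarith
  have hLt : t ^ 4 ≤ L / 5 := by
    rw [← ht12]
    have h1 : t ^ 12 = t ^ 4 * t ^ 8 := by ring
    rw [h1]
    have h2 : 0 ≤ t ^ 4 := by positivity
    nlinarith
  have e1 : Real.exp (-(L / 5)) ≤ Real.exp (-(t ^ 4)) := Real.exp_le_exp.2 (by linarith)
  have e2 : Real.exp (-(2 / 5 * L)) ≤ Real.exp (-(t ^ 4)) := Real.exp_le_exp.2 (by linarith)
  have e3 : 8 * Real.exp (-(t ^ 4)) ≤ Real.exp (-(t ^ 3)) := by
    have h1 : (8 : ℝ) ≤ t ^ 4 - t ^ 3 := by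
      have h2 : (2 : ℝ) ^ 3 ≤ t ^ 3 := pow_le_pow_left₀ (by norm_num) ht2 3
      have h3 : t ^ 4 = t ^ 3 * t := by ring
      rw [h3]
      nlinarith
    have h2 : (8 : ℝ) ≤ Real.exp (t ^ 4 - t ^ 3) := by
      have := Real.add_one_le_exp (t ^ 4 - t ^ 3)
      linarith
    calc 8 * Real.exp (-(t ^ 4)) ≤ Real.exp (t ^ 4 - t ^ 3) * Real.exp (-(t ^ 4)) :=
          mul_le_mul_of_nonneg_right h2 (Real.exp_pos _).le
      _ = Real.exp (-(t ^ 3)) := by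
          rw [← Real.exp_add]
          congr 1
          ring
  rw [ht3]
  calc S ≤ 2 * N * (Real.exp (-(t ^ 4)) + 2 * Real.exp (-(2 / 5 * L))) + 2 * (Z : ℝ) ^ 2 := hmain
    _ ≤ 2 * N * (Real.exp (-(t ^ 4)) + 2 * Real.exp (-(t ^ 4))) +
        2 * (N * Real.exp (-(t ^ 4))) := by
        have h1 : (Z : ℝ) ^ 2 ≤ N * Real.exp (-(t ^ 4)) :=
          hZ2.trans (mul_le_mul_of_nonneg_left e1 hN0.le)
        have h2 : 2 * (N : ℝ) * (Real.exp (-(t ^ 4)) + 2 * Real.exp (-(2 / 5 * L))) ≤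
            2 * N * (Real.exp (-(t ^ 4)) + 2 * Real.exp (-(t ^ 4))) :=
          mul_le_mul_of_nonneg_left (by linarith) (by positivity)
        linarith
    _ = N * (8 * Real.exp (-(t ^ 4))) := by ring
    _ ≤ N * Real.exp (-(t ^ 3)) := mul_le_mul_of_nonneg_left e3 hN0.le

end Pool.Agent.H1.VU
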